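import Pool.Agent.SLP.Sum
import Pool.Agent.PGS.D2f
import Pool.Agent.PGS.E18w

/-! SLP / Main: sums of the limit points of the normalised prime gaps. -/

set_option autoImplicit false

open MeasureTheory PGL

noncomputable section

namespace SLP

theorem diff_cases {u v w : ℝ} (hu : 0 < u) (hv : 0 < v) (hw : 0 < w) {i j : Fin 4}
    (h : (![0, u, u + v, u + v + w] : Fin 4 → ℝ) i < (![0, u, u + v, u + v + w] : Fin 4 → ℝ) j) :
    (![0, u, u + v, u + v + w] : Fin 4 → ℝ) j - (![0, u, u + v, u + v + w] : Fin 4 → ℝ) i = u ∨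
    (![0, u, u + v, u + v + w] : Fin 4 → ℝ) j - (![0, u, u + v, u + v + w] : Fin 4 → ℝ) i = v ∨
    (![0, u, u + v, u + v + w] : Fin 4 → ℝ) j - (![0, u, u + v, u + v + w] : Fin 4 → ℝ) i = w ∨
    (![0, u, u + v, u + v + w] : Fin 4 → ℝ) j - (![0, u, u + v, u + v + w] : Fin 4 → ℝ) i = u + v ∨
    (![0, u, u + v, u + v + w] : Fin 4 → ℝ) j - (![0, u, u + v, u + v + w] : Fin 4 → ℝ) i = v + w ∨
    (![0, u, u + v, u + v + w] : Fin 4 → ℝ) j - (![0, u, u + v, u + v + w] : Fin 4 → ℝ) i = u + v + w := by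
  have e0 : (![0, u, u + v, u + v + w] : Fin 4 → ℝ) 0 = 0 := rfl
  have e1 : (![0, u, u + v, u + v + w] : Fin 4 → ℝ) 1 = u := rfl
  have e2 : (![0, u, u + v, u + v + w] : Fin 4 → ℝ) 2 = u + v := rfl
  have e3 : (![0, u, u + v, u + v + w] : Fin 4 → ℝ) 3 = u + v + w := rfl
  have hi : i = 0 ∨ i = 1 ∨ i = 2 ∨ i = 3 := by fin_cases i <;> simp
  have hj : j = 0 ∨ j = 1 ∨ j = 2 ∨ j = 3 := by fin_cases j <;> simp
  rcases hi with rfl | rfl | rfl | rfl <;> rcases hj with rfl | rfl | rfl | rfl <;>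
    simp only [e0, e1, e2, e3] at h ⊢
  · exact absurd h (lt_irrefl _)
  · left; ring
  · right; right; right; left; ring
  · right; right; right; right; right; ring
  · exact absurd h (by linarith)
  · exact absurd h (lt_irrefl _)
  · right; left; ring
  · right; right; right; right; left; ring
  · exact absurd h (by linarith)
  · exact absurd h (by linarith)
  · exact absurd h (lt_irrefl _)
  · right; right; left; ring
  · exact absurd h (by linarith)
  · exact absurd h (by linarith)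
  · exact absurd h (by linarith)
  · exact absurd h (lt_irrefl _)

theorem four_SG : Four SG := by
  intro u v w hu hv hw
  have hinj : Function.Injective (![0, u, u + v, u + v + w] : Fin 4 → ℝ) := by
    intro i j hij
    fin_cases i <;> fin_cases j <;> simp at hij ⊢ <;> linarith
  obtain ⟨i, j, hij, hmem⟩ := PGS.p4 _ hinj
  rcases diff_cases hu hv hw hij with h | h | h | h | h | h <;> rw [h] at hmem
  · exact Or.inl hmem
  · exact Or.inr (Or.inl hmem)
  · exact Or.inr (Or.inr (Or.inl hmem))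
  · exact Or.inr (Or.inr (Or.inr (Or.inl hmem)))
  · exact Or.inr (Or.inr (Or.inr (Or.inr (Or.inl hmem))))
  · exact Or.inr (Or.inr (Or.inr (Or.inr (Or.inr hmem))))

theorem zero_SG : (0 : ℝ) ∈ SG := by
  by_contra hcon
  obtain ⟨ε, hε, hball⟩ := Metric.isOpen_iff.1 SG_closed.isOpen_compl 0 hcon
  have h : ∀ x : ℝ, 0 ≤ x → x < ε → x ∉ SG := fun x h1 h2 => hball (by
    rw [Metric.mem_ball, Real.dist_eq, sub_zero, abs_of_nonneg h1]
    exact h2)
  rcases four_SG (ε / 4) (ε / 4) (ε / 4) (by linarith) (by linarith) (by linarith) with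
    h1 | h1 | h1 | h1 | h1 | h1
  · exact h _ (by linarith) (by linarith) h1
  · exact h _ (by linarith) (by linarith) h1
  · exact h _ (by linarith) (by linarith) h1
  · exact h _ (by linarith) (by linarith) h1
  · exact h _ (by linarith) (by linarith) h1
  · exact h _ (by linarith) (by linarith) h1

/-- bounded gaps -/
theorem gap_SG : ∃ C : ℝ, 0 ≤ C ∧ ∀ x : ℝ, 0 ≤ x → ∃ s ∈ SG, x ≤ s ∧ s ≤ x + C := by
  obtain ⟨T₀, hT⟩ := PGS.density_win SG SG_closed 4 (by norm_num) PGS.p4 (1 / 4) (by norm_num)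
  refine ⟨max T₀ 1, le_trans zero_le_one (le_max_right _ _), fun x hx => ?_⟩
  by_contra hcon
  have h1 := hT x (max T₀ 1) hx (le_max_left _ _)
  have h2 : SG ∩ Set.Icc x (x + max T₀ 1) = ∅ := by
    ext s
    simp only [Set.mem_inter_iff, Set.mem_Icc, Set.mem_empty_iff_false, iff_false]
    rintro ⟨hs, hs1, hs2⟩
    exact hcon ⟨s, hs, hs1, hs2⟩
  rw [h2, measure_empty, ENNReal.toReal_zero] at h1
  have h3 : (1 : ℝ) ≤ max T₀ 1 := le_max_right _ _
  norm_num at h1
  linarith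

theorem two_SG : ∃ T₀ : ℝ, ∀ t : ℝ, T₀ ≤ t → ∃ x ∈ SG, ∃ y ∈ SG, x ≤ T₀ ∧ x + y = t := by
  obtain ⟨C, hC, hgap⟩ := gap_SG
  refine ⟨5 * C, fun t ht => ?_⟩
  obtain ⟨x, hx, hx5, hy⟩ := two SG_closed zero_SG four_SG C hC hgap t ht
  exact ⟨x, hx, t - x, hy, hx5, by ring⟩

theorem three_SG (t : ℝ) (ht : 0 ≤ t) : ∃ x ∈ SG, ∃ y ∈ SG, ∃ z ∈ SG, x + y + z = t :=
  three SG_closed zero_SG four_SG t ht

end SLP
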