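import Mathlib

/-! SLP / Sum: a closed set `S` of nonnegative reals which contains `0`, meets the differences of any four reals and
has bounded gaps: `S + S` contains a half line and `S + S + S = [0, ∞)`. -/

set_option autoImplicit false

noncomputable section

namespace SLP

/-- first point of a closed set after `x` -/
theorem first_ge {A : Set ℝ} (hA : IsClosed A) {x y : ℝ} (hy : y ∈ A) (hxy : x ≤ y) :
    ∃ a ∈ A, x ≤ a ∧ a ≤ y ∧ ∀ z, x ≤ z → z < a → z ∉ A := by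
  have hB : IsClosed (A ∩ Set.Ici x) := hA.inter isClosed_Ici
  have hbd : BddBelow (A ∩ Set.Ici x) := ⟨x, fun z hz => hz.2⟩
  have hm := hB.csInf_mem ⟨y, hy, hxy⟩ hbd
  refine ⟨sInf (A ∩ Set.Ici x), hm.1, hm.2, csInf_le hbd ⟨hy, hxy⟩, fun z hz hza hzA => ?_⟩
  exact absurd (csInf_le hbd ⟨hzA, hz⟩) (not_le.2 hza)

/-- last point of a closed set before `x` -/
theorem last_le {A : Set ℝ} (hA : IsClosed A) {x y : ℝ} (hy : y ∈ A) (hxy : y ≤ x) :
    ∃ a ∈ A, a ≤ x ∧ y ≤ a ∧ ∀ z, a < z → z ≤ x → z ∉ A := by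
  have hB : IsClosed (A ∩ Set.Iic x) := hA.inter isClosed_Iic
  have hbd : BddAbove (A ∩ Set.Iic x) := ⟨x, fun z hz => hz.2⟩
  have hm := hB.csSup_mem ⟨y, hy, hxy⟩ hbd
  refine ⟨sSup (A ∩ Set.Iic x), hm.1, hm.2, le_csSup hbd ⟨hy, hxy⟩, fun z hz hza hzA => ?_⟩
  exact absurd (le_csSup hbd ⟨hzA, hza⟩) (not_le.2 hz)

/-- the four point property in terms of the consecutive gaps -/
def Four (S : Set ℝ) : Prop := ∀ u v w : ℝ, 0 < u → 0 < v → 0 < w →
  u ∈ S ∨ v ∈ S ∨ w ∈ S ∨ u + v ∈ S ∨ v + w ∈ S ∨ u + v + w ∈ S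

/-- the points of `(0, t)` outside `S` and `t - S` -/
def Zt (S : Set ℝ) (t z : ℝ) : Prop := 0 < z ∧ z < t ∧ z ∉ S ∧ t - z ∉ S

section
variable {S : Set ℝ} {t : ℝ}

theorem Zt_symm {z : ℝ} (h : Zt S t z) : Zt S t (t - z) := by
  obtain ⟨h1, h2, h3, h4⟩ := h
  exact ⟨by linarith, by linarith, h4, by rwa [sub_sub_cancel]⟩

theorem F1 (h4 : Four S) (ht : t ∉ S) {z z' : ℝ} (hz : Zt S t z) (hz' : Zt S t z')
    (h : z < z') : z' - z ∈ S := by
  have h1 := h4 z (z' - z) (t - z') hz.1 (by linarith) (by linarith [hz'.2.1])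
  rcases h1 with h1 | h1 | h1 | h1 | h1 | h1
  · exact absurd h1 hz.2.2.1
  · exact h1
  · exact absurd h1 hz'.2.2.2
  · exact absurd (by simpa using h1) hz'.2.2.1
  · have e : z' - z + (t - z') = t - z := by ring
    rw [e] at h1
    exact absurd h1 hz.2.2.2
  · have e : z + (z' - z) + (t - z') = t := by ring
    rw [e] at h1
    exact absurd h1 ht

theorem F4 (h4 : Four S) (h0 : (0 : ℝ) ∈ S) (ht : t ∉ S) {z z' : ℝ} (hz : Zt S t z) (hz' : Zt S t z')
    (h : z + z' ≤ t) : t - (z + z') ∈ S := by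
  rcases h.eq_or_lt with h | h
  · rw [h, sub_self]
    exact h0
  · have h1 := F1 h4 ht hz' (Zt_symm hz) (by linarith)
    have e : t - z - z' = t - (z + z') := by ring
    rwa [e] at h1

theorem F5 (h4 : Four S) (h0 : (0 : ℝ) ∈ S) (ht : t ∉ S) {M : ℝ} (hM : M ≤ t)
    (hd : ∀ x ∈ S, x ≤ M → t - x ∉ S) {z₁ z₂ z₃ : ℝ}
    (hz₁ : Zt S t z₁) (hz₂ : Zt S t z₂) (hz₃ : Zt S t z₃) (h : z₁ + z₂ ≤ M) (h' : z₂ + z₃ ≤ M) :
    z₁ + z₂ + z₃ ∈ S := by
  rcases h4 z₁ z₂ z₃ hz₁.1 hz₂.1 hz₃.1 with h1 | h1 | h1 | h1 | h1 | h1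
  · exact absurd h1 hz₁.2.2.1
  · exact absurd h1 hz₂.2.2.1
  · exact absurd h1 hz₃.2.2.1
  · exact absurd (F4 h4 h0 ht hz₁ hz₂ (h.trans hM)) (hd _ h1 h)
  · exact absurd (F4 h4 h0 ht hz₂ hz₃ (h'.trans hM)) (hd _ h1 h')
  · exact h1

/-- the first gap -/
theorem first_gap (hc : IsClosed S) (h0 : (0 : ℝ) ∈ S) {y : ℝ} (hy : t - y ∈ S) (hy0 : 0 ≤ y) (hyt : y ≤ t)
    (hd : ∀ x ∈ S, x ≤ y → t - x ∉ S) :
    ∃ b q : ℝ, b ∈ S ∧ 0 ≤ b ∧ b < q ∧ q ≤ y ∧ t - q ∈ S ∧ (∀ z, b < z → z < q → Zt S t z) := by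
  have hL : IsClosed {x : ℝ | t - x ∈ S} := hc.preimage (continuous_const.sub continuous_id)
  obtain ⟨q, hq, hq0, hqt, hq'⟩ := first_ge hL (x := 0) (y := y) hy hy0
  obtain ⟨b, hb, hbq, hb0, hb'⟩ := last_le hc (x := q) (y := 0) h0 hq0
  have hbq' : b < q := lt_of_le_of_ne hbq (fun h => hd b hb (by linarith) (by rw [h]; exact hq))
  exact ⟨b, q, hb, hb0, hbq', hqt, hq, fun z h1 h2 =>
    ⟨by linarith, by linarith, hb' z h1 h2.le, hq' z (by linarith) h2⟩⟩

end

/-- three summands -/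
theorem three {S : Set ℝ} (hc : IsClosed S) (h0 : (0 : ℝ) ∈ S) (h4 : Four S) (t : ℝ) (ht : 0 ≤ t) :
    ∃ x ∈ S, ∃ y ∈ S, ∃ z ∈ S, x + y + z = t := by
  by_cases hd : ∀ x ∈ S, t - x ∉ S
  · have htS : t ∉ S := fun h => hd t h (by simpa using h0)
    obtain ⟨b, q, hb, hb0, hbq, hqt, hq, hZ⟩ := first_gap hc h0 (y := t) (by simpa using h0) ht le_rfl
      (fun x hx _ => hd x hx)
    refine ⟨b, hb, q - b, ?_, t - q, hq, by ring⟩
    by_contra hcon
    obtain ⟨ε, hε, hball⟩ := Metric.isOpen_iff.1 hc.isOpen_compl (q - b) hcon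
    set η : ℝ := min (ε / 4) ((q - b) / 4) with hη
    have h1 : η ≤ ε / 4 := min_le_left _ _
    have h2 : η ≤ (q - b) / 4 := min_le_right _ _
    have h3 : 0 < η := lt_min (by linarith) (by linarith)
    have h5 := F1 h4 htS (hZ (b + η) (by linarith) (by linarith)) (hZ (q - η) (by linarith) (by linarith))
      (by linarith)
    refine hball ?_ h5
    rw [Metric.mem_ball, Real.dist_eq, abs_lt]
    constructor <;> linarith
  · push Not at hd
    obtain ⟨x, hx, hx'⟩ := hd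
    exact ⟨x, hx, t - x, hx', 0, h0, by ring⟩

/-- two summands, one of them bounded -/
theorem two {S : Set ℝ} (hc : IsClosed S) (h0 : (0 : ℝ) ∈ S) (h4 : Four S) (C : ℝ)
    (hC : 0 ≤ C) (hgap : ∀ x, 0 ≤ x → ∃ s ∈ S, x ≤ s ∧ s ≤ x + C) (t : ℝ) (ht : 5 * C ≤ t) :
    ∃ x ∈ S, x ≤ 5 * C ∧ t - x ∈ S := by
  by_contra hcon
  have hd : ∀ x ∈ S, x ≤ 5 * C → t - x ∉ S := fun x hx hx5 hx' => hcon ⟨x, hx, hx5, hx'⟩
  have htS : t ∉ S := fun h => hd 0 h0 (by linarith) (by simpa using h)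
  have hL : IsClosed {x : ℝ | t - x ∈ S} := hc.preimage (continuous_const.sub continuous_id)
  have ht0 : 0 ≤ t := by linarith
  obtain ⟨s₀, hs₀, hs₀1, hs₀2⟩ := hgap (t - C) (by linarith)
  obtain ⟨b, q, hb, hb0, hbq, hqs, hq, hZ1⟩ := first_gap hc h0 (y := t - s₀) (by simpa using hs₀)
    (by linarith) (by linarith) (fun x hx hx1 => hd x hx (by linarith))
  have hqC : q ≤ C := by linarith
  have hq0 : 0 < q := by linarith
  obtain ⟨s, hs, hs1, hs2⟩ := hgap q hq0.le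
  obtain ⟨a, ha, hqa, has, hamin⟩ := first_ge hc hs hs1
  have hqa' : q < a := lt_of_le_of_ne hqa (fun h => hd a ha (by linarith) (by rw [← h]; exact hq))
  obtain ⟨d, hdL, hda, hqd, hdmax⟩ := last_le hL (x := a) (y := q) hq hqa
  have hda' : d < a := lt_of_le_of_ne hda (fun h => hd a ha (by linarith) (by rw [← h]; exact hdL))
  have haC : a ≤ 2 * C := by linarith
  have hZ2 : ∀ z, d < z → z < a → Zt S t z := fun z h1 h2 =>
    ⟨by linarith, by linarith, hamin z (by linarith) h2, hdmax z h1 h2.le⟩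
  -- the middle point of the second sum
  set e : ℝ := d + a with he
  have heL : t - e ∈ S := by
    have h1 := F4 h4 h0 htS (hZ2 ((d + a) / 2) (by linarith) (by linarith))
      (hZ2 ((d + a) / 2) (by linarith) (by linarith)) (by linarith)
    have e1 : (d + a) / 2 + (d + a) / 2 = e := by rw [he]; ring
    rwa [e1] at h1
  have het : e ≤ 4 * C := by linarith
  obtain ⟨β, hβ, hβe, hβ0, hβmax⟩ := last_le hc (x := e) (y := 0) h0 (by linarith)
  have hβe' : β < e := lt_of_le_of_ne hβe (fun h => hd β hβ (by linarith) (by rw [h]; exact heL))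
  obtain ⟨γ, hγ, hβγ, hγe, hγmin⟩ := first_ge hL (x := β) (y := e) heL hβe
  have hβγ' : β < γ := lt_of_le_of_ne hβγ (fun h => hd β hβ (by linarith) (by rw [h]; exact hγ))
  have hZ3 : ∀ z, β < z → z < γ → Zt S t z := fun z h1 h2 =>
    ⟨by linarith, by linarith, hβmax z h1 (by linarith), hγmin z h1.le h2⟩
  -- a point of `L`
  set η : ℝ := min ((q - b) / 2) ((γ - β) / 4) with hη
  have hη1 : η ≤ (q - b) / 2 := min_le_left _ _
  have hη2 : η ≤ (γ - β) / 4 := min_le_right _ _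
  have hη3 : 0 < η := lt_min (by linarith) (by linarith)
  set u : ℝ := q + (β + γ) / 2 with hu
  have huL : t - u ∈ S := by
    have h1 := F4 h4 h0 htS (hZ1 (q - η) (by linarith) (by linarith))
      (hZ3 ((β + γ) / 2 + η) (by linarith) (by linarith)) (by linarith)
    have e1 : q - η + ((β + γ) / 2 + η) = u := by rw [hu]; ring
    rwa [e1] at h1
  -- triple sums
  have hT : ∀ x, b + 2 * d < x → x < q + 2 * a → x ∈ S := by
    intro x h1 h2
    set D : ℝ := (q - b) + 2 * (a - d) with hD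
    have hD0 : 0 < D := by rw [hD]; linarith
    set θ : ℝ := (x - b - 2 * d) / D with hθ
    have hθ0 : 0 < θ := div_pos (by linarith) hD0
    have hθ1 : θ < 1 := by
      rw [hθ, div_lt_one hD0, hD]
      linarith
    have h3 : 0 < θ * (q - b) := mul_pos hθ0 (by linarith)
    have h5 : θ * (q - b) < q - b := by nlinarith
    have h6 : 0 < θ * (a - d) := mul_pos hθ0 (by linarith)
    have h7 : θ * (a - d) < a - d := by nlinarith
    have h8 := F5 h4 h0 htS ht hd (hZ1 (b + θ * (q - b)) (by linarith) (by linarith))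
      (hZ2 (d + θ * (a - d)) (by linarith) (by linarith)) (hZ2 (d + θ * (a - d)) (by linarith) (by linarith))
      (by linarith) (by linarith)
    have h9 : θ * D = x - b - 2 * d := by
      rw [hθ]
      field_simp
    have e1 : b + θ * (q - b) + (d + θ * (a - d)) + (d + θ * (a - d)) = x := by
      have : b + θ * (q - b) + (d + θ * (a - d)) + (d + θ * (a - d)) = b + 2 * d + θ * D := by rw [hD]; ring
      rw [this, h9]
      ring
    rwa [e1] at h8
  have hub : u ≤ b + 2 * d := by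
    by_contra hlt
    push Not at hlt
    exact hd u (hT u hlt (by linarith)) (by linarith) huL
  have hy0 : b + e ∈ S := hT (b + e) (by linarith) (by linarith)
  obtain ⟨α, hα, huα, hαy, hαmin⟩ := first_ge hc hy0 (x := u) (by linarith)
  obtain ⟨δ, hδ, hδα, huδ, hδmax⟩ := last_le hL (x := α) (y := u) huL huα
  have hδα' : δ < α := lt_of_le_of_ne hδα (fun h => hd α hα (by linarith) (by rw [← h]; exact hδ))
  have hZ4 : ∀ z, δ < z → z < α → Zt S t z := fun z h1 h2 =>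
    ⟨by linarith, by linarith, hαmin z (by linarith) h2, hδmax z h1 h2.le⟩
  have h1 := F1 h4 htS (hZ1 ((b + q) / 2) (by linarith) (by linarith))
    (hZ4 ((δ + α) / 2) (by linarith) (by linarith)) (by linarith)
  exact hβmax _ (by linarith) (by linarith) h1

end SLP
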